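import Mathlib
import Pool.Agent.Lib.P58ffb3.Defs
import Pool.Agent.Lib.P58ffb3.Extremal
import Pool.Agent.Lib.P58ffb3.Weak
import Pool.Agent.Lib.P58ffb3.Equil
import Pool.Agent.Lib.P58ffb3.Exist

open MeasureTheory Filter Topology Complex Polynomial
open Pool.Agent.Lib.P58ffb3

namespace Pool.Agent.Results.MP_58ffb3_an.Counterexample

/-- (S) does not imply (W), already in dimension `n = 1`: there are a compact `K ⊆ ℂ` with `V_K`
continuous, its equilibrium measure `μ`, and a finite measure `ν` on `K` whose `L²`-norm is a norm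
on polynomials, such that for every choice of orthonormal bases (and they exist) the measures
`B_k ν / (k+1)` converge weak-* to `μ` while `(2k)⁻¹ log B_k` does not converge locally uniformly
to `V_K`. -/
theorem result :
    ∃ (K : Set ℂ) (ν μ : Measure ℂ),
      IsCompact K ∧ Continuous (extremal K) ∧ (∀ z, extremal K z ≠ ⊤ ∧ extremal K z ≠ ⊥) ∧
      IsFiniteMeasure ν ∧ ν Kᶜ = 0 ∧
      (∀ p : ℂ[X], p ≠ 0 → 0 < ∫ z, ‖p.eval z‖ ^ 2 ∂ν) ∧
      IsEquilibriumMeasure K μ ∧
      (∀ k, ∃ e, IsOrthonormalBasisOf ν k e) ∧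
      ∀ e : (k : ℕ) → Fin (k + 1) → ℂ[X], (∀ k, IsOrthonormalBasisOf ν k (e k)) →
        PropertyS ν μ e ∧ ¬ PropertyW K e := by
  refine ⟨Metric.closedBall 0 1, nu, arc, isCompact_closedBall _ _, ?_, ?_, inferInstance, ?_,
    fun p hp => pos_of_ne_zero hp, isEquilibriumMeasure_arc, exists_orthonormalBasis,
    fun e he => ⟨propertyS he, ?_⟩⟩
  · have h : extremal (Metric.closedBall (0:ℂ) 1) = fun z => ((Real.posLog ‖z‖ : ℝ) : EReal) :=
      funext extremal_closedBall
    rw [h]
    exact continuous_coe_real_ereal.comp (Real.continuous_posLog.comp continuous_norm)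
  · intro z
    rw [extremal_closedBall]
    exact ⟨EReal.coe_ne_top _, EReal.coe_ne_bot _⟩
  · have h := ae_norm_eq_one
    rw [ae_iff] at h
    refine measure_mono_null ?_ h
    intro z hz
    simp only [Set.mem_compl_iff, Metric.mem_closedBall, dist_zero_right, not_le] at hz
    simp only [Set.mem_ofPred_eq]
    exact hz.ne'
  · intro hW
    have h1 : Tendsto (fun k : ℕ => (2 * (k : ℝ))⁻¹ * Real.log (bergman (e k) 0)) atTop (𝓝 0) := by
      rw [Metric.tendsto_atTop]
      intro ε hε
      have h5 := Metric.tendstoLocallyUniformly_iff.1 hW ε hε (0 : ℂ)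
      obtain ⟨t, ht, h6⟩ := h5
      obtain ⟨N, hN⟩ := eventually_atTop.1 h6
      refine ⟨N, fun n hn => ?_⟩
      have h7 := hN n hn 0 (mem_of_mem_nhds ht)
      rw [extremal_closedBall, EReal.toReal_coe, norm_zero, Real.posLog_zero] at h7
      rw [dist_comm]; exact h7
    have h2 : Tendsto (fun s : ℕ => 2 ^ s) atTop atTop :=
      tendsto_pow_atTop_atTop_of_one_lt (by norm_num : 1 < 2)
    have h3 := h1.comp h2
    have h4 := ge_of_tendsto h3 (Eventually.of_forall (fun s => log_bergman_zero_ge s (he (2 ^ s))))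
    linarith

end Pool.Agent.Results.MP_58ffb3_an.Counterexample
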